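import Pool.Agent.Q35.LCMain

/-!
# A real-analytic planar field with orthogonal Jacobian columns and a limit cycle

Disproof for `MP_3ec6ac_an`: there is a real-analytic (in particular `C^∞`) vector field
`P ∂_x + Q ∂_y` on the plane with `P_x P_y + Q_x Q_y = 0` everywhere and with a limit cycle.
-/

open scoped ContDiff

namespace Pool.Agent.Results.MP_3ec6ac_an.LimitCycle

/-- `γ` is a periodic solution (possibly constant) of `x' = P(x,y)`, `y' = Q(x,y)`. -/
def IsPeriodicSolution (P Q : ℝ → ℝ → ℝ) (γ : ℝ → ℝ × ℝ) : Prop :=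
  (∀ t, HasDerivAt γ (P (γ t).1 (γ t).2, Q (γ t).1 (γ t).2) t) ∧
    ∃ T > 0, Function.Periodic γ T

/-- `γ` is a limit cycle: a non-constant periodic solution whose orbit has a neighbourhood that
contains no other periodic orbit. -/
def IsLimitCycle (P Q : ℝ → ℝ → ℝ) (γ : ℝ → ℝ × ℝ) : Prop :=
  IsPeriodicSolution P Q γ ∧ (∃ s t, γ s ≠ γ t) ∧
    ∃ U : Set (ℝ × ℝ), IsOpen U ∧ Set.range γ ⊆ U ∧
      ∀ δ, IsPeriodicSolution P Q δ → Set.range δ ⊆ U → Set.range δ = Set.range γ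

/-- There is a real-analytic planar vector field with orthogonal Jacobian columns that has a limit
cycle. -/
theorem result : ∃ P Q : ℝ → ℝ → ℝ,
    ContDiff ℝ ω (fun z : ℝ × ℝ => P z.1 z.2) ∧ ContDiff ℝ ω (fun z : ℝ × ℝ => Q z.1 z.2) ∧
    (∀ x y, deriv (fun s => P s y) x * deriv (fun s => P x s) y +
      deriv (fun s => Q s y) x * deriv (fun s => Q x s) y = 0) ∧
    ∃ γ, IsLimitCycle P Q γ :=
  ⟨Q35.LC.Pf, Q35.LC.Qf, Q35.LC.Pf_smooth, Q35.LC.Qf_smooth, Q35.LC.orth,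
    Q35.LC.exists_limitCycle⟩

end Pool.Agent.Results.MP_3ec6ac_an.LimitCycle
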